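import Mathlib

namespace Pool.Agent.Results.MP_2c87a3_an.Cex24

open Complex

noncomputable def nuHat (E : Finset ℤ) (ξ : ℝ) : ℂ :=
  (1 / (E.card : ℂ)) * ∑ a ∈ E, cexp (-2 * Real.pi * I * (ξ : ℂ) * (a : ℂ))

def Spectral (N : ℕ) (A B : Finset ℤ) : Prop :=
  ∀ b ∈ B, ∀ b' ∈ B, b ≠ b' → nuHat A (((b - b' : ℤ) : ℝ) / (N : ℝ)) = 0

def Distributed (M : ℕ) (A B : Finset ℤ) : Prop :=
  ∀ b₁ ∈ B, ∀ b₁' ∈ B, b₁ ≠ b₁' →
    nuHat A (((b₁ - b₁' : ℤ) : ℝ) / (M : ℝ)) = 0 ∨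
    ∀ b₂ ∈ B, ∀ b₂' ∈ B,
      nuHat A (((b₁ - b₁' : ℤ) : ℝ) / (M : ℝ) ^ 2 + ((b₂ - b₂' : ℤ) : ℝ) / (M : ℝ)) = 0

lemma nu_eq (ξ : ℝ) : nuHat {0, 3, 18, 21} ξ =
    (1 / 4) * ((1 + cexp (-2 * Real.pi * I * (ξ : ℂ) * 3)) *
      (1 + cexp (-2 * Real.pi * I * (ξ : ℂ) * 18))) := by
  unfold nuHat
  have hc : ({0, 3, 18, 21} : Finset ℤ).card = 4 := by decide
  rw [hc, Finset.sum_insert (by decide), Finset.sum_insert (by decide),
    Finset.sum_insert (by decide), Finset.sum_singleton]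
  have h21 : cexp (-2 * Real.pi * I * (ξ : ℂ) * ((21 : ℤ) : ℂ)) =
      cexp (-2 * Real.pi * I * (ξ : ℂ) * 3) * cexp (-2 * Real.pi * I * (ξ : ℂ) * 18) := by
    rw [← Complex.exp_add]; congr 1; push_cast; ring
  rw [h21]; push_cast; simp; ring

lemma half (t : ℝ) (k : ℤ) (h : t = k + 1 / 2) : 1 + cexp (-2 * Real.pi * I * (t : ℂ)) = 0 := by
  have : -2 * Real.pi * I * (t : ℂ) = Real.pi * I + ((-k - 1 : ℤ) : ℂ) * (2 * Real.pi * I) := by
    rw [h]; push_cast; ring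
  rw [this, Complex.exp_add, Complex.exp_pi_mul_I, Complex.exp_int_mul_two_pi_mul_I]; ring

lemma z3 (ξ : ℝ) (k : ℤ) (h : ξ * 3 = k + 1 / 2) : nuHat {0, 3, 18, 21} ξ = 0 := by
  have := half _ k h
  rw [nu_eq]
  have e : -2 * Real.pi * I * (ξ : ℂ) * 3 = -2 * Real.pi * I * ((ξ * 3 : ℝ) : ℂ) := by
    push_cast; ring
  rw [e, this]; simp

lemma z18 (ξ : ℝ) (k : ℤ) (h : ξ * 18 = k + 1 / 2) : nuHat {0, 3, 18, 21} ξ = 0 := by
  have := half _ k h
  rw [nu_eq]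
  have e : -2 * Real.pi * I * (ξ : ℂ) * 18 = -2 * Real.pi * I * ((ξ * 18 : ℝ) : ℂ) := by
    push_cast; ring
  rw [e, this]; simp

lemma nz (t : ℝ) (h : ∀ k : ℤ, t ≠ k + 1 / 2) : 1 + cexp (-2 * Real.pi * I * (t : ℂ)) ≠ 0 := by
  intro h0
  have h1 : cexp (-2 * Real.pi * I * (t : ℂ)) = cexp (Real.pi * I) := by
    rw [Complex.exp_pi_mul_I]; linear_combination h0
  obtain ⟨n, hn⟩ := Complex.exp_eq_exp_iff_exists_int.1 h1
  have hp : (Real.pi : ℂ) * I ≠ 0 := mul_ne_zero (by exact_mod_cast Real.pi_ne_zero) I_ne_zero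
  have h2 : (t : ℂ) = ((-n - 1 : ℤ) : ℂ) + 1 / 2 := by
    apply mul_left_cancel₀ hp
    push_cast
    linear_combination (-1 / 2 : ℂ) * hn
  apply h (-n - 1)
  apply Complex.ofReal_injective
  rw [h2]; push_cast; ring

lemma nzz (ξ : ℝ) (h3 : ∀ k : ℤ, ξ * 3 ≠ k + 1 / 2) (h18 : ∀ k : ℤ, ξ * 18 ≠ k + 1 / 2) :
    nuHat {0, 3, 18, 21} ξ ≠ 0 := by
  rw [nu_eq]
  have e : -2 * Real.pi * I * (ξ : ℂ) * 3 = -2 * Real.pi * I * ((ξ * 3 : ℝ) : ℂ) := by
    push_cast; ring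
  have e' : -2 * Real.pi * I * (ξ : ℂ) * 18 = -2 * Real.pi * I * ((ξ * 18 : ℝ) : ℂ) := by
    push_cast; ring
  rw [e, e']
  exact mul_ne_zero (by norm_num) (mul_ne_zero (nz _ h3) (nz _ h18))

theorem result : ∃ (M : ℕ) (A B : Finset ℤ), 3 ≤ M ∧
    (∀ a ∈ A, 0 ≤ a ∧ a < M) ∧ (∀ b ∈ B, 0 ≤ b ∧ b < M) ∧
    A.card = B.card ∧ 1 < A.card ∧ A.card < M ∧
    Distributed M A B ∧ ¬ Spectral M A B ∧ ¬ Spectral (M ^ 2) A B := by
  refine ⟨24, {0, 3, 18, 21}, {0, 4, 16, 20}, by norm_num, by decide, by decide, by decide,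
    by decide, by decide, ?_, ?_, ?_⟩
  · intro b hb b' hb' hne
    have key : (∃ k : ℤ, b - b' = 8 * k + 4) ∨ (∃ k : ℤ, b - b' = 32 * k + 16) := by
      have : b - b' = 8 * ((b - b' - 4) / 8) + 4 ∨ b - b' = 32 * ((b - b' - 16) / 32) + 16 := by
        simp only [Finset.mem_insert, Finset.mem_singleton] at hb hb'
        omega
      rcases this with h | h
      · exact Or.inl ⟨_, h⟩
      · exact Or.inr ⟨_, h⟩
    rcases key with ⟨k, hk⟩ | ⟨k, hk⟩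
    · left
      apply z3 _ k
      rw [hk]; push_cast; ring
    · right
      intro c hc c' hc'
      have h4 : ∃ l : ℤ, c - c' = 4 * l := by
        simp only [Finset.mem_insert, Finset.mem_singleton] at hc hc'
        refine ⟨(c - c') / 4, ?_⟩
        rcases hc with rfl | rfl | rfl | rfl <;> rcases hc' with rfl | rfl | rfl | rfl <;> decide
      obtain ⟨l, hl⟩ := h4
      apply z18 _ (k + 3 * l)
      rw [hk, hl]; push_cast; ring
  · intro h
    refine nzz _ ?_ ?_ (h 16 (by decide) 0 (by decide) (by decide))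
    · intro k hk
      have : (4 : ℝ) = 2 * k + 1 := by push_cast at hk; linarith
      have : (4 : ℤ) = 2 * k + 1 := by exact_mod_cast this
      omega
    · intro k hk
      have : (24 : ℝ) = 2 * k + 1 := by push_cast at hk; linarith
      have : (24 : ℤ) = 2 * k + 1 := by exact_mod_cast this
      omega
  · intro h
    refine nzz _ ?_ ?_ (h 4 (by decide) 0 (by decide) (by decide))
    · intro k hk
      have : (1 : ℝ) = 48 * k + 24 := by push_cast at hk; linarith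
      have : (1 : ℤ) = 48 * k + 24 := by exact_mod_cast this
      omega
    · intro k hk
      have : (1 : ℝ) = 8 * k + 4 := by push_cast at hk; linarith
      have : (1 : ℤ) = 8 * k + 4 := by exact_mod_cast this
      omega

end Pool.Agent.Results.MP_2c87a3_an.Cex24
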